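import Pool.Agent.X133.GK.LL
import Pool.Agent.W193.BK.ES
import Pool.Agent.W240.BK.Var
import Pool.Agent.W540.BK.Fac
import Pool.Agent.W240.BK.Fluct
import Pool.Agent.W918.BK.Osc
import Pool.Agent.W240.BK.Two
import Pool.Agent.W465.BK.QB
import Pool.Agent.W475.BK.Low
import Pool.Agent.W975.BK.Sup
import Pool.Agent.W790.BK.ADM
import Pool.Agent.W475.BK.Inv
import Pool.Agent.W261.BK.Third

/-!
# Gaussian disorder, `d ≥ 3`: the eigenfunctions live beyond the kinetic scale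

`H_σ = Δ + σ ξ` on `ℤ^d`, `d ≥ 3`, `(Δψ)(x) = ∑_{|y-x|=1} ψ(y)`, iid standard Gaussian `ξ`,
restricted to the box `Λ_L = [-L, L]^d` with zero boundary conditions. For `0 < |σ| ≤ σ₀`, on one
event of probability at least `1 - exp(-|σ|^{-1/1300})`, for all `L ≥ |σ|^{-9}`, all energies
`|E| ≤ 2d - κ` and all scales `|σ|^{103/51} ≤ s ≤ |σ|^{161/80}` (that is
`|σ|^{2 + 1/51} ≤ s ≤ |σ|^{2 + 1/80}`):

1. at least `c₀ s |Λ_L|` eigenvalues lie in `[E - s, E + s]`;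
2. at most `ε s |Λ_L|` orthonormal eigenfunctions with energies in `[E - s, E + s]` satisfy
   `∑ₓ |u(x)| (∑_{|y - x| > ℓ} |u(y)|²)^{1/2} ≤ c₁ s^{-1/2}` with `ℓ = c₁ |σ|^{-1} s^{-1/2}`;
3. at most `ε s |Λ_L|` orthonormal eigenfunctions with energies in `[E - s, E + s]` satisfy
   `|u(x)| ≤ exp(|σ|^{-1/2000}) exp(-|x - x_c| / ℓ')` for some centre `x_c`, with
   `ℓ' = |σ|^{1/1000} |σ|^{-1} s^{-1/2}`.

For `s = |σ|^{2 + 1/51}` the length `ℓ'` is `|σ|^{-2 - 1/102 + 1/1000} ≥ |σ|^{-2 - 1/120}`.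
-/

set_option autoImplicit false

open scoped BigOperators
open MeasureTheory ProbabilityTheory

namespace Pool.Agent.Results.MP_1906c1_mp.LocalizationLength

/-- `(H_σ ψ)(x) = ∑_{|y-x|=1} ψ(y) + σ ξ(x) ψ(x)` -/
noncomputable def H {d : ℕ} (σ : ℝ) (ξ : (Fin d → ℤ) → ℝ) (u : (Fin d → ℤ) → ℂ)
    (x : Fin d → ℤ) : ℂ :=
  ∑ i : Fin d, (u (x + Pi.single i 1) + u (x - Pi.single i 1)) + ((σ * ξ x : ℝ) : ℂ) * u x

/-- the box `[-L, L]^d` -/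
noncomputable def Box (d L : ℕ) : Finset (Fin d → ℤ) :=
  Fintype.piFinset fun _ => Finset.Icc (-(L : ℤ)) L

/-- `u` is an orthonormal family of eigenfunctions of the restriction of `H_σ` to the box (functions
which vanish outside the box) with eigenvalues `En` -/
structure Eigenfamily (d L : ℕ) (σ : ℝ) (ξ : (Fin d → ℤ) → ℝ) {ι : Type}
    (u : ι → (Fin d → ℤ) → ℂ) (En : ι → ℝ) : Prop where
  out : ∀ n x, x ∉ Box d L → u n x = 0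
  eig : ∀ n, ∀ x ∈ Box d L, H σ ξ (u n) x = (En n : ℂ) * u n x
  one : ∀ n, ∑ x ∈ Box d L, ‖u n x‖ ^ 2 = 1
  orth : ∀ m n, m ≠ n → ∑ x ∈ Box d L, (starRingEnd ℂ) (u m x) * u n x = 0

/-- `∑ₓ |u(x)| (∑_{|y - x| > ℓ} |u(y)|²)^{1/2}`: small for a function which is concentrated in a
region of diameter at most `ℓ` -/
noncomputable def tail (d L : ℕ) (ℓ : ℝ) (u : (Fin d → ℤ) → ℂ) : ℝ :=
  ∑ x ∈ Box d L, ‖u x‖ * Real.sqrt (∑ y ∈ Box d L, (if ℓ < ‖y - x‖ then ‖u y‖ ^ 2 else 0))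

/-- the properties of the box `[-L, L]^d` at the energy `E` and the scale `s` -/
def Good {d : ℕ} (c0 c1 ε σ : ℝ) (ξ : (Fin d → ℤ) → ℝ) (L : ℕ) (E s : ℝ) : Prop :=
  (∀ (ι : Type) [Fintype ι] (u : ι → (Fin d → ℤ) → ℂ) (En : ι → ℝ),
    Eigenfamily d L σ ξ u En → Fintype.card ι = (Box d L).card →
    c0 * s * (Box d L).card ≤ (Nat.card {n : ι // |En n - E| ≤ s} : ℝ)) ∧
  (∀ (ι : Type) [Fintype ι] (u : ι → (Fin d → ℤ) → ℂ) (En : ι → ℝ),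
    Eigenfamily d L σ ξ u En → (∀ n, |En n - E| ≤ s) →
    (∀ n, tail d L (c1 / (Real.sqrt s * |σ|)) (u n) ≤ c1 / Real.sqrt s) →
    (Fintype.card ι : ℝ) ≤ ε * s * (Box d L).card) ∧
  (∀ (ι : Type) [Fintype ι] (u : ι → (Fin d → ℤ) → ℂ) (En : ι → ℝ),
    Eigenfamily d L σ ξ u En → (∀ n, |En n - E| ≤ s) →
    (∀ n, ∃ xc : Fin d → ℤ, ∀ x ∈ Box d L, ‖u n x‖ ≤
      Real.exp (|σ| ^ (-(1 / 2000) : ℝ)) *
        Real.exp (-(‖x - xc‖ / (|σ| ^ (1 / 1000 : ℝ) / (Real.sqrt s * |σ|))))) →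
    (Fintype.card ι : ℝ) ≤ ε * s * (Box d L).card)

theorem box_eq (d L : ℕ) : Pool.Agent.X133.LL.Bx (0 : Fin d → ℤ) L = Box d L := by
  unfold Pool.Agent.X133.LL.Bx Box
  simp

theorem ef_of {d L : ℕ} {σ σ' : ℝ} {ξ ω : (Fin d → ℤ) → ℝ} {ι : Type}
    {u : ι → (Fin d → ℤ) → ℂ} {En : ι → ℝ} (h : Eigenfamily d L σ ξ u En)
    (hω : ∀ x, σ' * ω x = -(σ * ξ x)) :
    Pool.Agent.X133.LL.EF (Pool.Agent.X133.LL.Bx 0 L) (fun x => 2 * d + σ' * ω x) u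
      (fun n => 2 * d - En n) := by
  rw [box_eq]
  refine ⟨h.out, fun n x hx => ?_, h.one, h.orth⟩
  have h1 := h.eig n x hx
  have h2 : H σ ξ (u n) x = Pool.Agent.X133.GA.S (u n) x + ((σ * ξ x : ℝ) : ℂ) * u n x := rfl
  rw [h2] at h1
  rw [hω]
  push_cast at h1 ⊢
  linear_combination -h1

theorem good_of {d : ℕ} {c0 c1 ε σ : ℝ} {ξ ω : (Fin d → ℤ) → ℝ} {L : ℕ} {E s : ℝ}
    (hω : ∀ x, |σ| * ω x = -(σ * ξ x))
    (h : (∀ (ι : Type) [Fintype ι] (u : ι → (Fin d → ℤ) → ℂ) (En : ι → ℝ),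
        Pool.Agent.X133.LL.EF (Pool.Agent.X133.LL.Bx 0 L) (fun x => 2 * d + |σ| * ω x) u En →
        Fintype.card ι = (Pool.Agent.X133.LL.Bx (0 : Fin d → ℤ) L).card →
        c0 * s * (Pool.Agent.X133.LL.Bx (0 : Fin d → ℤ) L).card ≤
          (Nat.card {n : ι // |En n - (2 * d - E)| ≤ s} : ℝ)) ∧
      (∀ (ι : Type) [Fintype ι] (u : ι → (Fin d → ℤ) → ℂ) (En : ι → ℝ),
        Pool.Agent.X133.LL.EF (Pool.Agent.X133.LL.Bx 0 L) (fun x => 2 * d + |σ| * ω x) u En →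
        (∀ n, |En n - (2 * d - E)| ≤ s) →
        (∀ n, Pool.Agent.X133.LL.lc (Pool.Agent.X133.LL.Bx 0 L) (c1 / (Real.sqrt s * |σ|)) (u n) ≤
          c1 / Real.sqrt s) →
        (Fintype.card ι : ℝ) ≤ ε * s * (Pool.Agent.X133.LL.Bx (0 : Fin d → ℤ) L).card) ∧
      (∀ (ι : Type) [Fintype ι] (u : ι → (Fin d → ℤ) → ℂ) (En : ι → ℝ),
        Pool.Agent.X133.LL.EF (Pool.Agent.X133.LL.Bx 0 L) (fun x => 2 * d + |σ| * ω x) u En →
        (∀ n, |En n - (2 * d - E)| ≤ s) →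
        (∀ n, ∃ xc : Fin d → ℤ, ∀ x ∈ Pool.Agent.X133.LL.Bx (0 : Fin d → ℤ) L, ‖u n x‖ ≤
          Real.exp (|σ| ^ (-(1 / 2000) : ℝ)) *
            Real.exp (-(‖x - xc‖ / (|σ| ^ (1 / 1000 : ℝ) / (Real.sqrt s * |σ|))))) →
        (Fintype.card ι : ℝ) ≤ ε * s * (Pool.Agent.X133.LL.Bx (0 : Fin d → ℤ) L).card)) :
    Good c0 c1 ε σ ξ L E s := by
  obtain ⟨k1, k2, k3⟩ := h
  have hw : ∀ En : ℝ, |2 * (d : ℝ) - En - (2 * d - E)| = |En - E| := by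
    intro En
    rw [sub_sub_sub_cancel_left, abs_sub_comm]
  rw [box_eq] at k1 k2 k3
  refine ⟨fun ι _ u En hu hcard => ?_, fun ι _ u En hu hwi ht => ?_, fun ι _ u En hu hwi ht => ?_⟩
  · have h4 := ef_of hu hω
    rw [box_eq] at h4
    have h5 := k1 ι u _ h4 hcard
    simp only [hw] at h5
    exact h5
  · have h4 := ef_of hu hω
    rw [box_eq] at h4
    exact k2 ι u _ h4 (fun n => by rw [hw]; exact hwi n) ht
  · have h4 := ef_of hu hω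
    rw [box_eq] at h4
    exact k3 ι u _ h4 (fun n => by rw [hw]; exact hwi n) ht

/-- **Theorem.** -/
theorem result (d : ℕ) (hd : 3 ≤ d) (κ : ℝ) (hκ : 0 < κ) :
    ∃ c0 : ℝ, 0 < c0 ∧ ∀ ε : ℝ, 0 < ε → ∃ c1 σ₀ : ℝ, 0 < c1 ∧ 0 < σ₀ ∧
    ∀ σ : ℝ, 0 < |σ| → |σ| ≤ σ₀ →
      ∃ G : Set ((Fin d → ℤ) → ℝ), MeasurableSet G ∧
        1 - Real.exp (-|σ| ^ (-(1 / 1300) : ℝ)) ≤
          (Measure.infinitePi fun _ : Fin d → ℤ => gaussianReal 0 1).real G ∧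
        ∀ ξ ∈ G, ∀ L : ℕ, 1 / |σ| ^ 9 ≤ (L : ℝ) → ∀ E : ℝ, |E| ≤ 2 * d - κ →
          ∀ s : ℝ, |σ| ^ (103 / 51 : ℝ) ≤ s → s ≤ |σ| ^ (161 / 80 : ℝ) →
            Good c0 c1 ε σ ξ L E s := by
  obtain ⟨c0, hc0, h⟩ := Pool.Agent.X133.GK.gLL Pool.Agent.W193.BK.ES.es
    (Pool.Agent.W261.BK.third Pool.Agent.W540.BK.fac)
    (Pool.Agent.W240.BK.fluct (Pool.Agent.W240.BK.var Pool.Agent.W193.BK.ES.es))
    Pool.Agent.W475.BK.inv Pool.Agent.W975.BK.sup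
    (Pool.Agent.W465.BK.qb (Pool.Agent.W240.BK.two Pool.Agent.W918.BK.Osc.osc))
    Pool.Agent.W475.BK.low Pool.Agent.W790.BK.ADM.adm Pool.Agent.W540.BK.fac
    Pool.Agent.W918.BK.Osc.osc d hd (min κ 1) (lt_min hκ one_pos) (min_le_right _ _)
  refine ⟨c0, hc0, fun ε hε => ?_⟩
  obtain ⟨c1, hc1, σ₀, hσ₀, h2⟩ := h ε hε
  refine ⟨c1, σ₀, hc1, hσ₀, fun σ h3 h4 => ?_⟩
  obtain ⟨G, hG, hP, hL⟩ := h2 |σ| h3 h4
  have hE : ∀ E : ℝ, |E| ≤ 2 * d - κ → |2 * (d : ℝ) - (2 * d - E)| ≤ 2 * d - min κ 1 := by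
    intro E hE
    have h5 : min κ 1 ≤ κ := min_le_left _ _
    rw [sub_sub_cancel]
    linarith
  rcases lt_or_gt_of_ne (abs_pos.1 h3) with hs | hs
  · refine ⟨G, hG, hP, fun ξ hξ L hLl E hE1 s hs1 hs2 => ?_⟩
    refine good_of (ω := ξ) (fun x => by rw [abs_of_neg hs]; ring) ?_
    exact hL ξ hξ L hLl (2 * d - E) (hE E hE1) s hs1 hs2
  · have hm : Measurable fun (ξ : (Fin d → ℤ) → ℝ) (x : Fin d → ℤ) => -ξ x :=
      measurable_pi_lambda _ fun x => (measurable_pi_apply x).neg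
    refine ⟨(fun ξ x => -ξ x) ⁻¹' G, hm hG, ?_, fun ξ hξ L hLl E hE1 s hs1 hs2 => ?_⟩
    · have h5 : (Measure.infinitePi fun _ : Fin d → ℤ => gaussianReal 0 1).real
          ((fun ξ x => -ξ x) ⁻¹' G) =
          (Measure.infinitePi fun _ : Fin d → ℤ => gaussianReal 0 1).real G := by
        conv_rhs => rw [← Pool.Agent.X133.GK.law_neg d]
        rw [map_measureReal_apply hm hG]
      rw [h5]
      exact hP
    · refine good_of (ω := fun x => -ξ x) (fun x => by rw [abs_of_pos hs]; ring) ?_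
      exact hL _ hξ L hLl (2 * d - E) (hE E hE1) s hs1 hs2

end Pool.Agent.Results.MP_1906c1_mp.LocalizationLength
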