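import Pool.Agent.X133.QD.FinG
import Pool.Agent.W193.BK.ES
import Pool.Agent.W240.BK.Var
import Pool.Agent.W540.BK.Fac
import Pool.Agent.W240.BK.Fluct
import Pool.Agent.W918.BK.Osc
import Pool.Agent.W240.BK.Two
import Pool.Agent.W465.BK.QB
import Pool.Agent.W475.BK.Low
import Pool.Agent.W975.BK.Sup
import Pool.Agent.W790.BK.ADM
import Pool.Agent.W475.BK.Inv
import Pool.Agent.W261.BK.Third

/-!
# Gaussian disorder, `d ≥ 3`: quantum diffusion in real time, at a fixed energy, for one realization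

`H_σ = Δ + σ ξ` on `ℤ^d`, `d ≥ 3`, `(Δψ)(x) = ∑_{|y-x|=1} ψ(y)`, iid standard Gaussian `ξ`,
restricted to the box `Λ_L = [-L, L]^d` with zero boundary conditions; `u_n`, `E_n` is any complete
orthonormal family of eigenfunctions and eigenvalues. For the window `I = [E - s₀, E + s₀]` let `N`
be the number of `E_n` in `I` and

`C(p, t) = ∑_{m : E_m ∈ I} ∑_n |⟨u_m, e^{i p·x} u_n⟩|² e^{i t (E_n - E_m)}
         = tr (1_I(H) e^{-itH} e^{i p·x} e^{itH} e^{-i p·x})`,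

the characteristic function of the displacement during the time `t` in the microcanonical ensemble
(times `N`). For `0 < |σ| ≤ σ₀`, on one event of probability at least `1 - exp(-|σ|^{-1/1300})`, for
all `L ≥ |σ|^{-9}`, all `|E| ≤ 2d - κ`, all `s ≥ |σ|^{2 + 1/51}` and `K s ≤ s₀ ≤ |σ|^{2 + 1/80}`:

`|C(p, t) - N exp (-D(E) |p|² |t| / σ²)| ≤ ε N` for all `|t| ≤ T / s` and `|p|² ≤ A σ² s`.

Here `D(E) = 2 Im g₁(E) / (Im g₀(E))²` is the diffusion constant of the linear Boltzmann equation,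
and `N ≥ |Λ_L| s₀ Im g₀(E) / 3`; `A`, `T`, `ε` are arbitrary and `K` depends on `d, κ, ε, T, A`. For
`s = |σ|^{2 + 1/51}` the times `t` are of the order `|σ|^{-2 - 1/51}` and the distances `1 / |p|` of
the order `|σ|^{-2 - 1/102}`, both beyond the kinetic scale `σ^{-2}`: at these scales the motion is
Brownian, at every energy of the bulk, without averaging over the disorder.
-/

set_option autoImplicit false

open scoped BigOperators
open MeasureTheory ProbabilityTheory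

namespace Pool.Agent.Results.MP_1906c1_mp.QuantumDiffusion

/-- `(H_σ ψ)(x) = ∑_{|y-x|=1} ψ(y) + σ ξ(x) ψ(x)` -/
noncomputable def H {d : ℕ} (σ : ℝ) (ξ : (Fin d → ℤ) → ℝ) (u : (Fin d → ℤ) → ℂ)
    (x : Fin d → ℤ) : ℂ :=
  ∑ i : Fin d, (u (x + Pi.single i 1) + u (x - Pi.single i 1)) + ((σ * ξ x : ℝ) : ℂ) * u x

/-- the box `[-L, L]^d` -/
noncomputable def Box (d L : ℕ) : Finset (Fin d → ℤ) :=
  Fintype.piFinset fun _ => Finset.Icc (-(L : ℤ)) L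

/-- `u` is an orthonormal family of eigenfunctions of the restriction of `H_σ` to the box (functions
which vanish outside the box) with eigenvalues `En` -/
structure Eigenfamily (d L : ℕ) (σ : ℝ) (ξ : (Fin d → ℤ) → ℝ) {ι : Type}
    (u : ι → (Fin d → ℤ) → ℂ) (En : ι → ℝ) : Prop where
  out : ∀ n x, x ∉ Box d L → u n x = 0
  eig : ∀ n, ∀ x ∈ Box d L, H σ ξ (u n) x = (En n : ℂ) * u n x
  one : ∀ n, ∑ x ∈ Box d L, ‖u n x‖ ^ 2 = 1
  orth : ∀ m n, m ≠ n → ∑ x ∈ Box d L, (starRingEnd ℂ) (u m x) * u n x = 0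

/-- the matrix element `⟨u, e^{i p·x} w⟩` -/
noncomputable def element (d L : ℕ) (p : Fin d → ℝ) (u w : (Fin d → ℤ) → ℂ) : ℂ :=
  ∑ x ∈ Box d L, (starRingEnd ℂ) (u x) *
    (Complex.exp (Complex.I * ((∑ i, p i * (x i : ℝ) : ℝ) : ℂ)) * w x)

/-- the number of eigenvalues in `[E - s, E + s]` -/
noncomputable def number {ι : Type} (En : ι → ℝ) (E s : ℝ) : ℝ := Nat.card {n : ι // |En n - E| ≤ s}

/-- `∑_{m : |E_m - E| ≤ s} ∑_n |⟨u_m, e^{i p·x} u_n⟩|² e^{i t (E_n - E_m)}` -/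
noncomputable def correlation {ι : Type} [Fintype ι] (d L : ℕ) (u : ι → (Fin d → ℤ) → ℂ)
    (En : ι → ℝ) (E s : ℝ) (p : Fin d → ℝ) (t : ℝ) : ℂ :=
  ∑ m, ∑ n, (if |En m - E| ≤ s then ((‖element d L p (u m) (u n)‖ ^ 2 : ℝ) : ℂ) *
    Complex.exp (Complex.I * (((En n - En m) * t : ℝ) : ℂ)) else 0)

/-- `∫_0^1 exp(-is · 2 cos 2πx) dx` -/
noncomputable def p0 (s : ℝ) : ℂ :=
  ∫ x in (0 : ℝ)..1, Complex.exp (Complex.I * ((-s * (2 * Real.cos (2 * Real.pi * x)) : ℝ) : ℂ))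

/-- `∫_0^1 sin²(2πx) exp(-is · 2 cos 2πx) dx` -/
noncomputable def p1 (s : ℝ) : ℂ :=
  ∫ x in (0 : ℝ)..1, ((Real.sin (2 * Real.pi * x) ^ 2 : ℝ) : ℂ) *
    Complex.exp (Complex.I * ((-s * (2 * Real.cos (2 * Real.pi * x)) : ℝ) : ℂ))

/-- the boundary value `∫_{[0,1]^d} (∑ 2 cos 2πk_i - E - i0)⁻¹ dk` -/
noncomputable def g0 (d : ℕ) (E : ℝ) : ℂ :=
  Complex.I * ∫ s in Set.Ioi (0 : ℝ), p0 s ^ d * Complex.exp (Complex.I * (E : ℂ) * s)

/-- the boundary value `∫_{[0,1]^d} sin²(2πk_1) (∑ 2 cos 2πk_i - E - i0)⁻¹ dk` -/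
noncomputable def g1 (d : ℕ) (E : ℝ) : ℂ :=
  Complex.I * ∫ s in Set.Ioi (0 : ℝ), p1 s * p0 s ^ (d - 1) * Complex.exp (Complex.I * (E : ℂ) * s)

/-- the diffusion constant of the linear Boltzmann equation -/
noncomputable def diffusion (d : ℕ) (E : ℝ) : ℝ := 2 * (g1 d E).im / (g0 d E).im ^ 2

/-- the properties of the box of radius `L` at the energy `E` and the scales `s`, `s0` -/
def Good {d : ℕ} (A T ε σ : ℝ) (ξ : (Fin d → ℤ) → ℝ) (L : ℕ) (E s s0 : ℝ) : Prop :=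
  ∀ (ι : Type) [Fintype ι] (u : ι → (Fin d → ℤ) → ℂ) (En : ι → ℝ),
    Eigenfamily d L σ ξ u En → Fintype.card ι = (Box d L).card →
    (g0 d E).im * s0 * (Box d L).card ≤ 3 * number En E s0 ∧
    ∀ p : Fin d → ℝ, ∑ i, p i ^ 2 ≤ A * (σ ^ 2 * s) → ∀ t : ℝ, |t| ≤ T / s →
      ‖correlation d L u En E s0 p t - ((number En E s0 *
        Real.exp (-(diffusion d E * (∑ i, p i ^ 2) / σ ^ 2 * |t|)) : ℝ) : ℂ)‖ ≤
        ε * number En E s0

theorem g0_eq (d : ℕ) (E : ℝ) : g0 d E = Pool.Agent.TH794.QD.GF (Pool.Agent.TH794.QD.F0 d) E := rfl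

theorem g1_eq (d : ℕ) (E : ℝ) : g1 d E = Pool.Agent.TH794.QD.GF (Pool.Agent.TH794.QD.F1 d) E := rfl

theorem box_eq (d L : ℕ) : Pool.Agent.X133.LL.Bx (0 : Fin d → ℤ) L = Box d L := by
  unfold Pool.Agent.X133.LL.Bx Box
  simp

theorem ef_of {d L : ℕ} {σ : ℝ} {ξ ω : (Fin d → ℤ) → ℝ} {ι : Type}
    {u : ι → (Fin d → ℤ) → ℂ} {En : ι → ℝ} (h : Eigenfamily d L σ ξ u En)
    (hω : ∀ x, |σ| * ω x = -(σ * ξ x)) :
    Pool.Agent.X133.LL.EF (Pool.Agent.X133.LL.Bx 0 L) (fun x => 2 * d + |σ| * ω x) u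
      (fun n => 2 * d - En n) := by
  rw [box_eq]
  refine ⟨h.out, fun n x hx => ?_, h.one, h.orth⟩
  have h1 := h.eig n x hx
  have h2 : H σ ξ (u n) x = Pool.Agent.X133.GA.S (u n) x + ((σ * ξ x : ℝ) : ℂ) * u n x := rfl
  rw [h2] at h1
  rw [hω]
  push_cast at h1 ⊢
  linear_combination -h1

theorem element_eq {d L : ℕ} {ι : Type} (u : ι → (Fin d → ℤ) → ℂ) (p : Fin d → ℝ) (m n : ι) :
    Pool.Agent.X133.QE.Am (Pool.Agent.X133.LL.Bx 0 L) u (Pool.Agent.TH794.HK.ph p) m n =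
      element d L p (u m) (u n) := by
  rw [box_eq]
  rfl

theorem number_eq {ι : Type} [Fintype ι] (En : ι → ℝ) (a E s : ℝ) :
    Pool.Agent.X133.QD.Nw (fun n => a - En n) (a - E) s = number En E s := by
  classical
  have hw : ∀ b : ℝ, |a - b - (a - E)| = |b - E| := by
    intro b
    rw [sub_sub_sub_cancel_left, abs_sub_comm]
  unfold Pool.Agent.X133.QD.Nw number
  simp only [hw]
  rw [Nat.card_eq_fintype_card, Fintype.card_subtype, Finset.card_filter]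
  push_cast
  rfl

theorem correlation_eq {ι : Type} [Fintype ι] {d L : ℕ} (u : ι → (Fin d → ℤ) → ℂ)
    (En : ι → ℝ) (a E s : ℝ) (p : Fin d → ℝ) (t : ℝ) :
    Pool.Agent.X133.QD.Cw (fun n => a - En n)
      (fun i j => ‖Pool.Agent.X133.QE.Am (Pool.Agent.X133.LL.Bx 0 L) u
      (Pool.Agent.TH794.HK.ph p) i j‖ ^ 2) (a - E) s (-t) = correlation d L u En E s p t := by
  have hw : ∀ b : ℝ, |a - b - (a - E)| = |b - E| := by
    intro b
    rw [sub_sub_sub_cancel_left, abs_sub_comm]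
  have hw2 : ∀ b b' : ℝ, (a - b - (a - b')) * -t = (b - b') * t := by
    intro b b'
    ring
  unfold Pool.Agent.X133.QD.Cw correlation
  simp only [element_eq, hw, hw2]

theorem good_of {d : ℕ} {A T ε σ : ℝ} {ξ ω : (Fin d → ℤ) → ℝ} {L : ℕ} {E s s0 : ℝ}
    (hω : ∀ x, |σ| * ω x = -(σ * ξ x))
    (h : Pool.Agent.X133.QD.ConclT d (fun x => 2 * d + |σ| * ω x) L A T ε |σ| (2 * d - E) s s0
      (Pool.Agent.TH794.QD.GF (Pool.Agent.TH794.QD.F0 d) ((2 * d - (2 * d - E) : ℝ) : ℂ)).im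
      (2 * (Pool.Agent.TH794.QD.GF (Pool.Agent.TH794.QD.F1 d) ((2 * d - (2 * d - E) : ℝ) : ℂ)).im /
        (Pool.Agent.TH794.QD.GF (Pool.Agent.TH794.QD.F0 d) ((2 * d - (2 * d - E) : ℝ) : ℂ)).im ^
          2)) :
    Good A T ε σ ξ L E s s0 := by
  intro ι _ u En hu hcard
  obtain ⟨k1, k2⟩ := h ι u _ (ef_of hu hω) (by rw [box_eq]; exact hcard)
  rw [sub_sub_cancel] at k1 k2
  rw [number_eq, box_eq] at k1
  refine ⟨k1, fun p hp t ht => ?_⟩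
  have k3 := k2 p (by rw [sq_abs]; exact hp) (-t) (by rw [abs_neg]; exact ht)
  rw [number_eq, correlation_eq, sq_abs, abs_neg] at k3
  exact k3

/-- **Theorem.** -/
theorem result (d : ℕ) (hd : 3 ≤ d) (κ ε T A : ℝ) (hκ : 0 < κ) (hε : 0 < ε) (hT : 0 < T)
    (hA : 0 < A) :
    (∃ m : ℝ, 0 < m ∧ ∀ E : ℝ, |E| ≤ 2 * d - κ → m ≤ (g1 d E).im ∧ (g1 d E).im ≤ (g0 d E).im) ∧
    ∃ K σ₀ : ℝ, 0 < K ∧ 0 < σ₀ ∧ ∀ σ : ℝ, 0 < |σ| → |σ| ≤ σ₀ →
      ∃ G : Set ((Fin d → ℤ) → ℝ), MeasurableSet G ∧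
        1 - Real.exp (-|σ| ^ (-(1 / 1300) : ℝ)) ≤
          (Measure.infinitePi fun _ : Fin d → ℤ => gaussianReal 0 1).real G ∧
        ∀ ξ ∈ G, ∀ L : ℕ, 1 / |σ| ^ 9 ≤ (L : ℝ) → ∀ E : ℝ, |E| ≤ 2 * d - κ →
          ∀ s s0 : ℝ, |σ| ^ (103 / 51 : ℝ) ≤ s → K * s ≤ s0 → s0 ≤ |σ| ^ (161 / 80 : ℝ) →
            Good A T ε σ ξ L E s s0 := by
  have hES := Pool.Agent.W193.BK.ES.es
  have hTH := Pool.Agent.W261.BK.third Pool.Agent.W540.BK.fac
  have hFL := Pool.Agent.W240.BK.fluct (Pool.Agent.W240.BK.var Pool.Agent.W193.BK.ES.es)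
  have hIN := Pool.Agent.W475.BK.inv
  have hSU := Pool.Agent.W975.BK.sup
  have hQB := Pool.Agent.W465.BK.qb (Pool.Agent.W240.BK.two Pool.Agent.W918.BK.Osc.osc)
  have hLO := Pool.Agent.W475.BK.low
  have hAD := Pool.Agent.W790.BK.ADM.adm
  have hFA := Pool.Agent.W540.BK.fac
  have hO := Pool.Agent.W918.BK.Osc.osc
  have hκm : 0 < min κ 1 := lt_min hκ one_pos
  have hκ3 : min κ 1 ≤ κ := min_le_left _ _
  constructor
  · obtain ⟨⟨m, hm, hl⟩, -⟩ := Pool.Agent.TH794.HK.finN hES hTH hFL hIN hSU hQB hLO hAD hFA hO d hd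
      (min κ 1) hκm (min_le_right _ _)
    exact ⟨m, hm, fun E hE => hl E (by linarith)⟩
  obtain ⟨K, σ₀, hK, hσ₀, h⟩ := Pool.Agent.X133.QD.finG hES hTH hFL hIN hSU hQB hLO hAD hFA hO
    d hd (min κ 1) hκm (min_le_right _ _) ε T A hε hT hA
  refine ⟨K, σ₀, by linarith, hσ₀, fun σ h3 h4 => ?_⟩
  obtain ⟨G, hG, hP, hL⟩ := h |σ| h3 h4
  have hE : ∀ E : ℝ, |E| ≤ 2 * d - κ → |2 * (d : ℝ) - (2 * d - E)| ≤ 2 * d - min κ 1 := by
    intro E hE
    rw [sub_sub_cancel]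
    linarith
  rcases lt_or_gt_of_ne (abs_pos.1 h3) with hs | hs
  · refine ⟨G, hG, hP, fun ξ hξ L hLl E hE1 s s0 hs1 hs2 hs3 => ?_⟩
    exact good_of (ω := ξ) (fun x => by rw [abs_of_neg hs]; ring)
      (hL ξ hξ L hLl (2 * d - E) (hE E hE1) s s0 hs1 hs2 hs3)
  · have hm : Measurable fun (ξ : (Fin d → ℤ) → ℝ) (x : Fin d → ℤ) => -ξ x :=
      measurable_pi_lambda _ fun x => (measurable_pi_apply x).neg
    refine ⟨(fun ξ x => -ξ x) ⁻¹' G, hm hG, ?_, fun ξ hξ L hLl E hE1 s s0 hs1 hs2 hs3 => ?_⟩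
    · have h5 : (Measure.infinitePi fun _ : Fin d → ℤ => gaussianReal 0 1).real
          ((fun ξ x => -ξ x) ⁻¹' G) =
          (Measure.infinitePi fun _ : Fin d → ℤ => gaussianReal 0 1).real G := by
        conv_rhs => rw [← Pool.Agent.X133.GK.law_neg d]
        rw [map_measureReal_apply hm hG]
      rw [h5]
      exact hP
    · exact good_of (ω := fun x => -ξ x) (fun x => by rw [abs_of_pos hs]; ring)
        (hL _ hξ L hLl (2 * d - E) (hE E hE1) s s0 hs1 hs2 hs3)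

end Pool.Agent.Results.MP_1906c1_mp.QuantumDiffusion
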