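import Pool.Agent.X133.QE.FinG
import Pool.Agent.W193.BK.ES
import Pool.Agent.W240.BK.Var
import Pool.Agent.W540.BK.Fac
import Pool.Agent.W240.BK.Fluct
import Pool.Agent.W918.BK.Osc
import Pool.Agent.W240.BK.Two
import Pool.Agent.W465.BK.QB
import Pool.Agent.W475.BK.Low
import Pool.Agent.W975.BK.Sup
import Pool.Agent.W790.BK.ADM
import Pool.Agent.W475.BK.Inv
import Pool.Agent.W261.BK.Third

/-!
# Gaussian disorder, `d ≥ 3`: quantum ergodicity of the eigenfunctions beyond the kinetic scale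

`H_σ = Δ + σ ξ` on `ℤ^d`, `d ≥ 3`, `(Δψ)(x) = ∑_{|y-x|=1} ψ(y)`, iid standard Gaussian `ξ`,
restricted to the box `Λ_L = [-L, L]^d` with zero boundary conditions. For `0 < |σ| ≤ σ₀`, on one
event of probability at least `1 - exp(-|σ|^{-1/1300})`, for all `L ≥ |σ|^{-9}`, all energies
`|E| ≤ 2d - κ`, all scales `|σ|^{2 + 1/51} ≤ s ≤ |σ|^{2 + 1/75}` and every complete orthonormal
family of eigenfunctions `u_n` of the box (eigenvalues `E_n`):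

1. the number `N` of eigenvalues in `[E - s, E + s]` is at least `c₀ s |Λ_L|`;
2. for all wave vectors `p` with `c₁ σ² s ≤ |p|² ≤ A σ² s`, the sum of `|⟨u_m, e^{i p·x} u_n⟩|²` over
   all pairs with `|E_m - E| ≤ s` and `|E_n - E_m| ≤ s / K` is at most `ε N`; in particular
   (`m = n`) the Fourier transform of `|u_n|²` at `p` is small for most `n` in the window;
3. for every continuous function `f` on the torus `ℝ^d / ℤ^d` and all lengths `ℓ` with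
   `c₁ σ² s ≤ ℓ^{-2} ≤ A σ² s`, the inequality `|∑_x f(x / ℓ) |u_n(x)|² - ∫ f| ≤ ε` holds for all but
   at most `ε N` of the `N` eigenfunctions with `|E_n - E| ≤ s`: the densities `|u_n|²` are
   equidistributed modulo `ℓ`.

Here `A` is arbitrary, and `K`, `c₁` depend only on `d, κ, ε, f`. For `s = |σ|^{2 + 1/51}` the
lengths `ℓ` are of the order `|σ|^{-2 - 1/102}`; the mean free path is of the order `σ^{-2}`.
-/

set_option autoImplicit false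

open scoped BigOperators
open MeasureTheory ProbabilityTheory

namespace Pool.Agent.Results.MP_1906c1_mp.QuantumErgodicity

/-- `(H_σ ψ)(x) = ∑_{|y-x|=1} ψ(y) + σ ξ(x) ψ(x)` -/
noncomputable def H {d : ℕ} (σ : ℝ) (ξ : (Fin d → ℤ) → ℝ) (u : (Fin d → ℤ) → ℂ)
    (x : Fin d → ℤ) : ℂ :=
  ∑ i : Fin d, (u (x + Pi.single i 1) + u (x - Pi.single i 1)) + ((σ * ξ x : ℝ) : ℂ) * u x

/-- the box `[-L, L]^d` -/
noncomputable def Box (d L : ℕ) : Finset (Fin d → ℤ) :=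
  Fintype.piFinset fun _ => Finset.Icc (-(L : ℤ)) L

/-- `u` is an orthonormal family of eigenfunctions of the restriction of `H_σ` to the box (functions
which vanish outside the box) with eigenvalues `En` -/
structure Eigenfamily (d L : ℕ) (σ : ℝ) (ξ : (Fin d → ℤ) → ℝ) {ι : Type}
    (u : ι → (Fin d → ℤ) → ℂ) (En : ι → ℝ) : Prop where
  out : ∀ n x, x ∉ Box d L → u n x = 0
  eig : ∀ n, ∀ x ∈ Box d L, H σ ξ (u n) x = (En n : ℂ) * u n x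
  one : ∀ n, ∑ x ∈ Box d L, ‖u n x‖ ^ 2 = 1
  orth : ∀ m n, m ≠ n → ∑ x ∈ Box d L, (starRingEnd ℂ) (u m x) * u n x = 0

/-- the matrix element `⟨u, e^{i p·x} w⟩` -/
noncomputable def element (d L : ℕ) (p : Fin d → ℝ) (u w : (Fin d → ℤ) → ℂ) : ℂ :=
  ∑ x ∈ Box d L, (starRingEnd ℂ) (u x) *
    (Complex.exp (Complex.I * ((∑ i, p i * (x i : ℝ) : ℝ) : ℂ)) * w x)

/-- the number of eigenvalues in `[E - s, E + s]` -/
noncomputable def number {ι : Type} (En : ι → ℝ) (E s : ℝ) : ℝ := Nat.card {n : ι // |En n - E| ≤ s}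

/-- the point `x / ℓ` of the torus `ℝ^d / ℤ^d` -/
noncomputable def torusPoint {d : ℕ} (ℓ : ℝ) (x : Fin d → ℤ) : UnitAddTorus (Fin d) :=
  fun i => (((x i : ℝ) / ℓ : ℝ) : UnitAddCircle)

/-- the properties of the box `[-L, L]^d` at the energy `E` and the scale `s` -/
def Good {d : ℕ} (f : C(UnitAddTorus (Fin d), ℂ)) (c0 K c1 A ε σ : ℝ) (ξ : (Fin d → ℤ) → ℝ)
    (L : ℕ) (E s : ℝ) : Prop :=
  ∀ (ι : Type) [Fintype ι] (u : ι → (Fin d → ℤ) → ℂ) (En : ι → ℝ),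
    Eigenfamily d L σ ξ u En → Fintype.card ι = (Box d L).card →
    c0 * s * (Box d L).card ≤ number En E s ∧
    (∀ p : Fin d → ℝ, c1 * (σ ^ 2 * s) ≤ ∑ i, p i ^ 2 → ∑ i, p i ^ 2 ≤ A * (σ ^ 2 * s) →
      ∑ m, ∑ n, (if |En m - E| ≤ s ∧ |En n - En m| ≤ s / K then
        ‖element d L p (u m) (u n)‖ ^ 2 else 0) ≤ ε * number En E s) ∧
    (∀ ℓ : ℝ, 0 < ℓ → c1 * (σ ^ 2 * s) ≤ 1 / ℓ ^ 2 → 1 / ℓ ^ 2 ≤ A * (σ ^ 2 * s) →
      (Nat.card {n : ι // |En n - E| ≤ s ∧ ε < ‖∑ x ∈ Box d L,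
        f (torusPoint ℓ x) * ((‖u n x‖ ^ 2 : ℝ) : ℂ) -
          ∫ t : UnitAddTorus (Fin d), f t‖} : ℝ) ≤ ε * number En E s)

theorem box_eq (d L : ℕ) : Pool.Agent.X133.LL.Bx (0 : Fin d → ℤ) L = Box d L := by
  unfold Pool.Agent.X133.LL.Bx Box
  simp

theorem ef_of {d L : ℕ} {σ σ' : ℝ} {ξ ω : (Fin d → ℤ) → ℝ} {ι : Type}
    {u : ι → (Fin d → ℤ) → ℂ} {En : ι → ℝ} (h : Eigenfamily d L σ ξ u En)
    (hω : ∀ x, σ' * ω x = -(σ * ξ x)) :
    Pool.Agent.X133.LL.EF (Pool.Agent.X133.LL.Bx 0 L) (fun x => 2 * d + σ' * ω x) u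
      (fun n => 2 * d - En n) := by
  rw [box_eq]
  refine ⟨h.out, fun n x hx => ?_, h.one, h.orth⟩
  have h1 := h.eig n x hx
  have h2 : H σ ξ (u n) x = Pool.Agent.X133.GA.S (u n) x + ((σ * ξ x : ℝ) : ℂ) * u n x := rfl
  rw [h2] at h1
  rw [hω]
  push_cast at h1 ⊢
  linear_combination -h1

theorem element_eq {d L : ℕ} {ι : Type} (u : ι → (Fin d → ℤ) → ℂ) (p : Fin d → ℝ) (m n : ι) :
    Pool.Agent.X133.QE.Am (Pool.Agent.X133.LL.Bx 0 L) u (Pool.Agent.TH794.HK.ph p) m n =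
      element d L p (u m) (u n) := by
  rw [box_eq]
  rfl

theorem good_of {d : ℕ} {f : C(UnitAddTorus (Fin d), ℂ)} {c0 K c1 A ε σ : ℝ}
    {ξ ω : (Fin d → ℤ) → ℝ} {L : ℕ} {E s : ℝ} (hε : 0 < ε)
    (hω : ∀ x, |σ| * ω x = -(σ * ξ x))
    (h : Pool.Agent.X133.QE.Concl d (fun x => 2 * d + |σ| * ω x) f L c0 K c1 A
      (min ε (ε * c0)) |σ| (2 * d - E) s) (hs : 0 < s) :
    Good f c0 K c1 A ε σ ξ L E s := by
  intro ι _ u En hu hcard
  obtain ⟨k1, k2, k3⟩ := h ι u _ (ef_of hu hω) (by rw [box_eq]; exact hcard)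
  have hw : ∀ En : ℝ, |2 * (d : ℝ) - En - (2 * d - E)| = |En - E| := by
    intro En
    rw [sub_sub_sub_cancel_left, abs_sub_comm]
  have hw2 : ∀ a b : ℝ, |2 * (d : ℝ) - a - (2 * d - b)| = |a - b| := by
    intro a b
    rw [sub_sub_sub_cancel_left, abs_sub_comm]
  simp only [element_eq, hw2, sq_abs] at k1 k2 k3
  rw [box_eq] at k1 k2 k3
  have hB : (0 : ℝ) ≤ (Box d L).card := Nat.cast_nonneg _
  have hle : min ε (ε * c0) * s * (Box d L).card ≤ ε * number En E s := by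
    calc min ε (ε * c0) * s * (Box d L).card ≤ ε * c0 * s * (Box d L).card := by
          gcongr
          exact min_le_right _ _
      _ = ε * (c0 * s * (Box d L).card) := by ring
      _ ≤ ε * number En E s := mul_le_mul_of_nonneg_left k1 hε.le
  refine ⟨k1, fun p hp1 hp2 => (k2 p hp1 hp2).trans hle, fun ℓ hℓ hℓ1 hℓ2 => ?_⟩
  refine le_trans ?_ ((k3 ℓ hℓ hℓ1 hℓ2).trans hle)
  norm_cast
  apply Nat.card_le_card_of_injective (fun n => ⟨n.1, n.2.1, lt_of_le_of_lt (min_le_left _ _) n.2.2⟩)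
  intro n n' hn
  exact Subtype.ext (congrArg (fun t => t.1) hn)

/-- **Theorem.** -/
theorem result (d : ℕ) (hd : 3 ≤ d) (κ : ℝ) (hκ : 0 < κ) :
    ∃ c0 : ℝ, 0 < c0 ∧ ∀ ε : ℝ, 0 < ε → ∀ f : C(UnitAddTorus (Fin d), ℂ),
    ∃ K c1 : ℝ, 0 < K ∧ 0 < c1 ∧ ∀ A : ℝ, 0 < A → ∃ σ₀ : ℝ, 0 < σ₀ ∧
    ∀ σ : ℝ, 0 < |σ| → |σ| ≤ σ₀ →
      ∃ G : Set ((Fin d → ℤ) → ℝ), MeasurableSet G ∧
        1 - Real.exp (-|σ| ^ (-(1 / 1300) : ℝ)) ≤
          (Measure.infinitePi fun _ : Fin d → ℤ => gaussianReal 0 1).real G ∧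
        ∀ ξ ∈ G, ∀ L : ℕ, 1 / |σ| ^ 9 ≤ (L : ℝ) → ∀ E : ℝ, |E| ≤ 2 * d - κ →
          ∀ s : ℝ, |σ| ^ (103 / 51 : ℝ) ≤ s → s ≤ |σ| ^ (151 / 75 : ℝ) →
            Good f c0 K c1 A ε σ ξ L E s := by
  obtain ⟨c0, hc0, h⟩ := Pool.Agent.X133.QE.finG Pool.Agent.W193.BK.ES.es
    (Pool.Agent.W261.BK.third Pool.Agent.W540.BK.fac)
    (Pool.Agent.W240.BK.fluct (Pool.Agent.W240.BK.var Pool.Agent.W193.BK.ES.es))
    Pool.Agent.W475.BK.inv Pool.Agent.W975.BK.sup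
    (Pool.Agent.W465.BK.qb (Pool.Agent.W240.BK.two Pool.Agent.W918.BK.Osc.osc))
    Pool.Agent.W475.BK.low Pool.Agent.W790.BK.ADM.adm Pool.Agent.W540.BK.fac
    Pool.Agent.W918.BK.Osc.osc d hd (min κ 1) (lt_min hκ one_pos) (min_le_right _ _)
  refine ⟨c0, hc0, fun ε hε f => ?_⟩
  obtain ⟨K, c1, hK, hc1, h1⟩ := h (min ε (ε * c0)) (lt_min hε (by positivity)) f
  refine ⟨K, c1, by linarith, hc1, fun A hA => ?_⟩
  obtain ⟨σ₀, hσ₀, h2⟩ := h1 A hA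
  refine ⟨σ₀, hσ₀, fun σ h3 h4 => ?_⟩
  obtain ⟨G, hG, hP, hL⟩ := h2 |σ| h3 h4
  have hE : ∀ E : ℝ, |E| ≤ 2 * d - κ → |2 * (d : ℝ) - (2 * d - E)| ≤ 2 * d - min κ 1 := by
    intro E hE
    have h5 : min κ 1 ≤ κ := min_le_left _ _
    rw [sub_sub_cancel]
    linarith
  have hs0 : ∀ s : ℝ, |σ| ^ (103 / 51 : ℝ) ≤ s → 0 < s := fun s hs =>
    lt_of_lt_of_le (by positivity) hs
  rcases lt_or_gt_of_ne (abs_pos.1 h3) with hs | hs
  · refine ⟨G, hG, hP, fun ξ hξ L hLl E hE1 s hs1 hs2 => ?_⟩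
    refine good_of (ω := ξ) hε (fun x => by rw [abs_of_neg hs]; ring) ?_ (hs0 s hs1)
    exact hL ξ hξ L hLl (2 * d - E) (hE E hE1) s hs1 hs2
  · have hm : Measurable fun (ξ : (Fin d → ℤ) → ℝ) (x : Fin d → ℤ) => -ξ x :=
      measurable_pi_lambda _ fun x => (measurable_pi_apply x).neg
    refine ⟨(fun ξ x => -ξ x) ⁻¹' G, hm hG, ?_, fun ξ hξ L hLl E hE1 s hs1 hs2 => ?_⟩
    · have h5 : (Measure.infinitePi fun _ : Fin d → ℤ => gaussianReal 0 1).real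
          ((fun ξ x => -ξ x) ⁻¹' G) =
          (Measure.infinitePi fun _ : Fin d → ℤ => gaussianReal 0 1).real G := by
        conv_rhs => rw [← Pool.Agent.X133.GK.law_neg d]
        rw [map_measureReal_apply hm hG]
      rw [h5]
      exact hP
    · refine good_of (ω := fun x => -ξ x) hε (fun x => by rw [abs_of_pos hs]; ring) ?_ (hs0 s hs1)
      exact hL _ hξ L hLl (2 * d - E) (hE E hE1) s hs1 hs2

end Pool.Agent.Results.MP_1906c1_mp.QuantumErgodicity
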