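import Pool.Agent.X133.QP.FinG
import Pool.Agent.X133.QP.Exi
import Mathlib.Analysis.Calculus.Deriv.Star
import Pool.Agent.W193.BK.ES
import Pool.Agent.W240.BK.Var
import Pool.Agent.W540.BK.Fac
import Pool.Agent.W240.BK.Fluct
import Pool.Agent.W918.BK.Osc
import Pool.Agent.W240.BK.Two
import Pool.Agent.W465.BK.QB
import Pool.Agent.W475.BK.Low
import Pool.Agent.W975.BK.Sup
import Pool.Agent.W790.BK.ADM
import Pool.Agent.W475.BK.Inv
import Pool.Agent.W261.BK.Third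

/-!
# Gaussian disorder, `d ≥ 3`: Brownian motion of a particle started at one site, for one realization

`H_σ = Δ + σ ξ` on `ℤ^d`, `d ≥ 3`, `(Δψ)(x) = ∑_{|y-x|=1} ψ(y)`, iid standard Gaussian `ξ`, in
infinite volume; `ψ_t = e^{-itH} δ_a` is the particle which starts at the site `a`. With the diffusion
constant of the linear Boltzmann equation at the energy `E`,

`D(E) = 2 Im g₁(E) / (Im g₀(E))²`,

and the density of states `Im g₀(E) / π` of `Δ` (a probability density on `[-2d, 2d]`, proved here):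
for `0 < |σ| ≤ σ₀`, on one event of probability at least `1 - exp(-|σ|^{-1/1200})`, for ALL sites
`|a| ≤ exp(|σ|^{-1/1200})`, all `|σ|^{2 + 1/51} ≤ s ≤ |σ|^{2 + 1/75}` and all `|p|² ≤ A σ² s`

`|∫_0^∞ s φ(s t) (∑_x e^{ip·(x-a)} |ψ_t(x)|² - (1/π) ∫ Im g₀(E) exp(-D(E) |p|² t / σ²) dE) dt| ≤ ε`.

Here `φ` is any continuous function of compact support, `A, ε > 0` are arbitrary and `σ₀` depends on
`d, φ, ε, A`. So the distribution of the position, averaged over times `t` in an interval of the order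
`1 / s` (between `|σ|^{-2 - 1/75}` and `|σ|^{-2 - 1/51}`, beyond the kinetic time `σ^{-2}`) and
rescaled by the diffusive length `1 / (|σ| √s)`, is for every starting point the one of the mixture
over the energies of the Brownian motions with the diffusion constants `D(E) / σ²`: no average over
the disorder, over the initial position or over the energy is taken, and no part of the particle
stays localized. The existence of the evolution is proved for every real potential.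
-/

set_option autoImplicit false

open scoped BigOperators
open MeasureTheory ProbabilityTheory

namespace Pool.Agent.Results.MP_1906c1_mp.SiteDiffusion

/-- `(H_σ ψ)(x) = ∑_{|y-x|=1} ψ(y) + σ ξ(x) ψ(x)` -/
noncomputable def H {d : ℕ} (σ : ℝ) (ξ : (Fin d → ℤ) → ℝ) (u : (Fin d → ℤ) → ℂ)
    (x : Fin d → ℤ) : ℂ :=
  ∑ i : Fin d, (u (x + Pi.single i 1) + u (x - Pi.single i 1)) + ((σ * ξ x : ℝ) : ℂ) * u x

/-- `ψ` is the solution of the Schrödinger equation `i ∂_t ψ = H_σ ψ` on `ℤ^d` which starts at the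
site `a` -/
structure Evolution {d : ℕ} (σ : ℝ) (ξ : (Fin d → ℤ) → ℝ) (a : Fin d → ℤ)
    (ψ : ℝ → (Fin d → ℤ) → ℂ) : Prop where
  init : ∀ x, ψ 0 x = if x = a then 1 else 0
  ode : ∀ t x, HasDerivAt (fun t => ψ t x) (-Complex.I * H σ ξ (ψ t) x) t
  norm : ∀ t, HasSum (fun x => ‖ψ t x‖ ^ 2) 1

/-- `∑_x e^{i p·(x-a)} |ψ_t(x)|²` -/
noncomputable def position {d : ℕ} (ψ : ℝ → (Fin d → ℤ) → ℂ) (a : Fin d → ℤ) (p : Fin d → ℝ)
    (t : ℝ) : ℂ :=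
  ∑' x : Fin d → ℤ, Complex.exp (Complex.I * ((∑ i, p i * (((x - a) i : ℤ) : ℝ) : ℝ) : ℂ)) *
    ((‖ψ t x‖ ^ 2 : ℝ) : ℂ)

/-- `∫_0^1 exp(-is · 2 cos 2πx) dx` -/
noncomputable def p0 (s : ℝ) : ℂ :=
  ∫ x in (0 : ℝ)..1, Complex.exp (Complex.I * ((-s * (2 * Real.cos (2 * Real.pi * x)) : ℝ) : ℂ))

/-- `∫_0^1 sin²(2πx) exp(-is · 2 cos 2πx) dx` -/
noncomputable def p1 (s : ℝ) : ℂ :=
  ∫ x in (0 : ℝ)..1, ((Real.sin (2 * Real.pi * x) ^ 2 : ℝ) : ℂ) *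
    Complex.exp (Complex.I * ((-s * (2 * Real.cos (2 * Real.pi * x)) : ℝ) : ℂ))

/-- the boundary value `∫_{[0,1]^d} (∑ 2 cos 2πk_i - E - i0)⁻¹ dk` -/
noncomputable def g0 (d : ℕ) (E : ℝ) : ℂ :=
  Complex.I * ∫ s in Set.Ioi (0 : ℝ), p0 s ^ d * Complex.exp (Complex.I * (E : ℂ) * s)

/-- the boundary value `∫_{[0,1]^d} sin²(2πk_1) (∑ 2 cos 2πk_i - E - i0)⁻¹ dk` -/
noncomputable def g1 (d : ℕ) (E : ℝ) : ℂ :=
  Complex.I * ∫ s in Set.Ioi (0 : ℝ), p1 s * p0 s ^ (d - 1) * Complex.exp (Complex.I * (E : ℂ) * s)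

/-- the diffusion constant of the linear Boltzmann equation -/
noncomputable def diffusion (d : ℕ) (E : ℝ) : ℝ := 2 * (g1 d E).im / (g0 d E).im ^ 2

/-- `(1/π) ∫_{[-2d,2d]} Im g₀(E) exp(-D(E) q t / σ²) dE`, the characteristic function (`q = |p|²`) of
the mixture of the Brownian motions -/
noncomputable def brownian (d : ℕ) (σ q t : ℝ) : ℝ :=
  1 / Real.pi * ∫ E in Set.Icc (-(2 * d : ℝ)) (2 * d),
    (g0 d E).im * Real.exp (-(diffusion d E * q / σ ^ 2 * t))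

/-- the property of the realization `ξ` for the sites `a` and the scales `s` -/
def Good {d : ℕ} (φ : ℝ → ℝ) (A ε σ : ℝ) (ξ : (Fin d → ℤ) → ℝ) (a : Fin d → ℤ) (s : ℝ) : Prop :=
  ∀ ψ, Evolution σ ξ a ψ → ∀ p : Fin d → ℝ, ∑ i, p i ^ 2 ≤ A * (σ ^ 2 * s) →
    ‖∫ t in Set.Ioi (0 : ℝ), ((s * φ (s * t) : ℝ) : ℂ) *
      (position ψ a p t - ((brownian d σ (∑ i, p i ^ 2) t : ℝ) : ℂ))‖ ≤ ε

/-- the transformation `ψ ↦ e^{-2dit} conj ψ` -/
noncomputable def tw {d : ℕ} (ψ : ℝ → (Fin d → ℤ) → ℂ) (t : ℝ) (x : Fin d → ℤ) : ℂ :=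
  Complex.exp (-(Complex.I * ((2 * d : ℝ) : ℂ) * t)) * (starRingEnd ℂ) (ψ t x)

theorem tw_norm {d : ℕ} (ψ : ℝ → (Fin d → ℤ) → ℂ) (t : ℝ) (x : Fin d → ℤ) :
    ‖tw ψ t x‖ = ‖ψ t x‖ := by
  unfold tw
  rw [norm_mul, Complex.norm_conj, Complex.norm_exp]
  simp

theorem tw_deriv {d : ℕ} (α : ℝ) (v : (Fin d → ℤ) → ℝ) (ψ : ℝ → (Fin d → ℤ) → ℂ)
    (h : ∀ t x, HasDerivAt (fun t => ψ t x) (-Complex.I * ((α : ℂ) *
      Pool.Agent.W788.LD.Spec.S (ψ t) x + (v x : ℂ) * ψ t x)) t) (t : ℝ) (x : Fin d → ℤ) :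
    HasDerivAt (fun t => tw ψ t x) (-Complex.I * (((-α : ℝ) : ℂ) *
      Pool.Agent.W788.LD.Spec.S (tw ψ t) x + ((2 * d - v x : ℝ) : ℂ) * tw ψ t x)) t := by
  have h1 := (Pool.Agent.X133.QP.e_deriv (2 * d) t).mul (h t x).star
  refine h1.congr_deriv ?_
  have h2 : Pool.Agent.W788.LD.Spec.S (tw ψ t) x =
      Complex.exp (-(Complex.I * ((2 * d : ℝ) : ℂ) * t)) *
        (starRingEnd ℂ) (Pool.Agent.W788.LD.Spec.S (ψ t) x) := by
    unfold Pool.Agent.W788.LD.Spec.S tw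
    rw [map_sum, Finset.mul_sum]
    refine Finset.sum_congr rfl fun i _ => ?_
    rw [map_add]
    ring
  rw [h2]
  unfold tw
  simp only [← starRingEnd_apply, map_mul, map_add, map_neg, Complex.conj_I, Complex.conj_ofReal]
  push_cast
  ring

theorem tw_init {d : ℕ} (ψ : ℝ → (Fin d → ℤ) → ℂ) (a : Fin d → ℤ)
    (h : ∀ x, ψ 0 x = if x = a then 1 else 0) (x : Fin d → ℤ) :
    tw ψ 0 x = if x = a then 1 else 0 := by
  unfold tw
  rw [h]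
  split_ifs <;> simp

theorem sol_of {d : ℕ} {σ : ℝ} {ξ ω : (Fin d → ℤ) → ℝ} {a : Fin d → ℤ}
    (hω : ∀ x, |σ| * ω x = -(σ * ξ x)) {ψ : ℝ → (Fin d → ℤ) → ℂ} (h : Evolution σ ξ a ψ) :
    Pool.Agent.TH794.QD.Sol d (fun x => 2 * d + |σ| * ω x) a (tw ψ) := by
  refine ⟨tw_init ψ a h.init, fun t x => ?_, fun t => ?_⟩
  · have h1 := tw_deriv 1 (fun x => σ * ξ x) ψ (fun t x => (h.ode t x).congr_deriv (by
      unfold H Pool.Agent.W788.LD.Spec.S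
      push_cast
      ring)) t x
    refine h1.congr_deriv ?_
    rw [hω]
    push_cast
    ring
  · simp only [tw_norm]
    exact h.norm t

theorem of_sol {d : ℕ} {σ : ℝ} {ξ ω : (Fin d → ℤ) → ℝ} {a : Fin d → ℤ}
    (hω : ∀ x, |σ| * ω x = -(σ * ξ x)) {χ : ℝ → (Fin d → ℤ) → ℂ}
    (h : Pool.Agent.TH794.QD.Sol d (fun x => 2 * d + |σ| * ω x) a χ) :
    Evolution σ ξ a (tw χ) := by
  refine ⟨tw_init χ a h.init, fun t x => ?_, fun t => ?_⟩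
  · have h1 := tw_deriv (-1) (fun x => 2 * d + |σ| * ω x) χ (fun t x => (h.ode t x).congr_deriv (by
      push_cast
      ring)) t x
    refine h1.congr_deriv ?_
    rw [hω]
    unfold H Pool.Agent.W788.LD.Spec.S
    push_cast
    ring
  · simp only [tw_norm]
    exact h.norm t

theorem good_of {d : ℕ} {φ : ℝ → ℝ} {A ε σ : ℝ} {ξ ω : (Fin d → ℤ) → ℝ} {a : Fin d → ℤ} {s : ℝ}
    (hω : ∀ x, |σ| * ω x = -(σ * ξ x))
    (h : Pool.Agent.X133.QP.ConclP d (fun x => 2 * d + |σ| * ω x) a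
      (Set.Icc (-(2 * d : ℝ)) (2 * d)) φ A ε |σ| s 1
      (fun E => (Pool.Agent.TH794.QD.GF (Pool.Agent.TH794.QD.F0 d) (E : ℂ)).im)
      (fun E => (Pool.Agent.TH794.QD.GF (Pool.Agent.TH794.QD.F1 d) (E : ℂ)).im)) :
    Good φ A ε σ ξ a s := by
  intro ψ hψ p hp
  have h1 := h (tw ψ) (sol_of hω hψ) p (by rw [sq_abs]; exact hp)
  simp only [tw_norm, one_mul, sq_abs] at h1
  exact h1

/-- **Theorem.** -/
theorem result (d : ℕ) (hd : 3 ≤ d) :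
    ((∀ E : ℝ, 0 ≤ (g1 d E).im ∧ (g1 d E).im ≤ (g0 d E).im) ∧
      (∀ κ : ℝ, 0 < κ → ∃ m : ℝ, 0 < m ∧ ∀ E : ℝ, |E| ≤ 2 * d - κ → m ≤ (g1 d E).im) ∧
      1 / Real.pi * ∫ E in Set.Icc (-(2 * d : ℝ)) (2 * d), (g0 d E).im = 1) ∧
    ∀ φ : ℝ → ℝ, Continuous φ → HasCompactSupport φ → ∀ ε A : ℝ, 0 < ε → 0 < A →
    ∃ σ₀ : ℝ, 0 < σ₀ ∧ ∀ σ : ℝ, 0 < |σ| → |σ| ≤ σ₀ →
      ∃ G : Set ((Fin d → ℤ) → ℝ), MeasurableSet G ∧
        1 - Real.exp (-|σ| ^ (-(1 / 1200) : ℝ)) ≤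
          (Measure.infinitePi fun _ : Fin d → ℤ => gaussianReal 0 1).real G ∧
        ∀ ξ ∈ G, ∀ a : Fin d → ℤ, ‖a‖ ≤ Real.exp (|σ| ^ (-(1 / 1200) : ℝ)) →
          (∃ ψ, Evolution σ ξ a ψ) ∧
          ∀ s : ℝ, |σ| ^ (103 / 51 : ℝ) ≤ s → s ≤ |σ| ^ (151 / 75 : ℝ) → Good φ A ε σ ξ a s := by
  have hES := Pool.Agent.W193.BK.ES.es
  have hTH := Pool.Agent.W261.BK.third Pool.Agent.W540.BK.fac
  have hFL := Pool.Agent.W240.BK.fluct (Pool.Agent.W240.BK.var Pool.Agent.W193.BK.ES.es)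
  have hIN := Pool.Agent.W475.BK.inv
  have hSU := Pool.Agent.W975.BK.sup
  have hQB := Pool.Agent.W465.BK.qb (Pool.Agent.W240.BK.two Pool.Agent.W918.BK.Osc.osc)
  have hLO := Pool.Agent.W475.BK.low
  have hAD := Pool.Agent.W790.BK.ADM.adm
  have hFA := Pool.Agent.W540.BK.fac
  have hO := Pool.Agent.W918.BK.Osc.osc
  refine ⟨⟨fun E => Pool.Agent.TH794.QD.GF_im hO d hd (E : ℂ) (by simp), fun κ hκ => ?_, ?_⟩, ?_⟩
  · obtain ⟨⟨m, hm, hl⟩, -⟩ := Pool.Agent.TH794.HK.finN hES hTH hFL hIN hSU hQB hLO hAD hFA hO d hd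
      (min κ 1) (lt_min hκ one_pos) (min_le_right _ _)
    refine ⟨m, hm, fun E hE => (hl E ?_).1⟩
    have h3 : min κ 1 ≤ κ := min_le_left _ _
    linarith
  · have h1 := (Pool.Agent.X133.QP.mass3 hO d hd).2
    have h2 : (∫ E in Set.Icc (-(2 * d : ℝ)) (2 * d), (g0 d E).im) = Real.pi := h1
    rw [h2, one_div, inv_mul_cancel₀ Real.pi_ne_zero]
  intro φ hφ hφs ε A hε hA
  obtain ⟨σ₀, hσ₀, h⟩ := Pool.Agent.X133.QP.finPG hES hTH hFL hIN hSU hQB hLO hAD hFA hO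
    d hd φ hφ hφs ε A hε hA
  refine ⟨σ₀, hσ₀, fun σ h3 h4 => ?_⟩
  obtain ⟨G, hG, hP, hL⟩ := h |σ| h3 h4
  rcases lt_or_gt_of_ne (abs_pos.1 h3) with hs | hs
  · have hω : ∀ ξ : (Fin d → ℤ) → ℝ, ∀ x, |σ| * ξ x = -(σ * ξ x) := fun ξ x => by
      rw [abs_of_neg hs]
      ring
    refine ⟨G, hG, hP, fun ξ hξ a ha => ⟨?_, fun s hs1 hs2 => ?_⟩⟩
    · obtain ⟨χ, hχ⟩ := Pool.Agent.X133.QP.exists_sol' (fun x => 2 * d + |σ| * ξ x) a
      exact ⟨_, of_sol (hω ξ) hχ⟩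
    · exact good_of (hω ξ) (hL ξ hξ a ha s hs1 hs2)
  · have hm : Measurable fun (ξ : (Fin d → ℤ) → ℝ) (x : Fin d → ℤ) => -ξ x :=
      measurable_pi_lambda _ fun x => (measurable_pi_apply x).neg
    have hω : ∀ ξ : (Fin d → ℤ) → ℝ, ∀ x, |σ| * (fun x => -ξ x) x = -(σ * ξ x) := fun ξ x => by
      rw [abs_of_pos hs]
      ring
    refine ⟨(fun ξ x => -ξ x) ⁻¹' G, hm hG, ?_, fun ξ hξ a ha => ⟨?_, fun s hs1 hs2 => ?_⟩⟩
    · have h5 : (Measure.infinitePi fun _ : Fin d → ℤ => gaussianReal 0 1).real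
          ((fun ξ x => -ξ x) ⁻¹' G) =
          (Measure.infinitePi fun _ : Fin d → ℤ => gaussianReal 0 1).real G := by
        conv_rhs => rw [← Pool.Agent.X133.GK.law_neg d]
        rw [map_measureReal_apply hm hG]
      rw [h5]
      exact hP
    · obtain ⟨χ, hχ⟩ := Pool.Agent.X133.QP.exists_sol' (fun x => 2 * d + |σ| * (-ξ x)) a
      exact ⟨_, of_sol (hω ξ) hχ⟩
    · exact good_of (hω ξ) (hL _ hξ a ha s hs1 hs2)

end Pool.Agent.Results.MP_1906c1_mp.SiteDiffusion
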